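import Pool.Agent.Helper19.RD.Stmts9

set_option autoImplicit false

namespace Pool.Agent.Helper19.RD

open Finset Pool.Agent.Helper18.RD

theorem st_CDB : ST_CDB := by
  intro N q a S e c d k w m h i hi j hj hij
  have hd : 1 ≤ d i j := h.pos i hi j hj hij
  refine ⟨hd, ?_⟩
  have hcd := h.dat.cd i hi j hj hij
  have hk : 1 ≤ k ∧ k ≤ 2 := by rcases h.dat.kap with h1 | h1 <;> omega
  have hiN : (i : ℤ) < N := by exact_mod_cast Finset.mem_range.1 (h.dat.sub hi)
  have hjN : (j : ℤ) < N := by exact_mod_cast Finset.mem_range.1 (h.dat.sub hj)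
  have hi0 : (0 : ℤ) ≤ i := Int.natCast_nonneg i
  have hj0 : (0 : ℤ) ≤ j := Int.natCast_nonneg j
  have hne : (i : ℤ) - j ≠ 0 := sub_ne_zero.2 (by exact_mod_cast hij)
  have habs : |(i : ℤ) - j| ≤ N := by rw [abs_le]; constructor <;> linarith
  have hc : c i j ≠ 0 := by
    intro h0
    rw [h0, zero_mul] at hcd
    exact mul_ne_zero (by omega) hne hcd.symm
  have hc1 : 1 ≤ |c i j| := Int.one_le_abs hc
  have h1 : |c i j| * |d i j| = |k| * |(i : ℤ) - j| := by rw [← abs_mul, hcd, abs_mul]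
  have hk' : |k| = k := abs_of_nonneg (by omega)
  have hd' : |d i j| = d i j := abs_of_nonneg (by omega)
  rw [hk', hd'] at h1
  have h2 : k * |(i : ℤ) - j| ≤ 2 * N := by
    have := abs_nonneg ((i : ℤ) - j)
    nlinarith [hk.1, hk.2]
  nlinarith

end Pool.Agent.Helper19.RD
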