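import Pool.Agent.Helper19.RD.Stmts8

set_option autoImplicit false

namespace Pool.Agent.Helper19.RD

open Finset Pool.Agent.Helper18.RD

theorem st_PG : ST_PG := by
  classical
  intro J d ξ hJ hξ hT
  by_contra h
  push Not at h
  have h1 : ∑ p ∈ J.offDiag, (NQ J d p.1 p.2).card ≤ (TN J d).card := by
    rw [← Finset.card_sigma]
    apply Finset.card_le_card_of_injOn (fun s => (s.2.1, s.1.1, s.2.2, s.1.2))
    · rintro ⟨p, z⟩ hs
      obtain ⟨hp, hz⟩ := Finset.mem_sigma.1 hs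
      obtain ⟨hx, hy, hxy⟩ := Finset.mem_offDiag.1 hp
      obtain ⟨hz1, hz2⟩ := Finset.mem_filter.1 hz
      obtain ⟨hz11, hz12⟩ := Finset.mem_product.1 hz1
      obtain ⟨c1, c2, c3, c4⟩ := hz2
      refine Finset.mem_coe.2 (Finset.mem_filter.2 ⟨Finset.mem_filter.2 ⟨?_, c1, c2, c3, hxy⟩, c4⟩)
      exact Finset.mem_product.2 ⟨hz11, Finset.mem_product.2 ⟨hx, Finset.mem_product.2
        ⟨hz12, hy⟩⟩⟩
    · rintro ⟨⟨p1, p2⟩, ⟨z1, z2⟩⟩ _ ⟨⟨p1', p2'⟩, ⟨z1', z2'⟩⟩ _ he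
      simp only [Prod.mk.injEq] at he
      obtain ⟨e1, e2, e3, e4⟩ := he
      subst e1 e2 e3 e4
      rfl
  have hJ' : (2 : ℝ) ≤ J.card := by exact_mod_cast hJ
  have hoff : ((J.offDiag.card : ℕ) : ℝ) = (J.card : ℝ) * J.card - J.card := by
    rw [Finset.offDiag_card, Nat.cast_sub (Nat.le_mul_of_pos_left _ (by omega))]
    push_cast
    ring
  have hne : J.offDiag.Nonempty := by
    rw [← Finset.card_pos]
    have : (0 : ℝ) < (J.offDiag.card : ℝ) := by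
      rw [hoff]
      nlinarith
    exact_mod_cast this
  have h2 : (J.offDiag.card : ℝ) * (2 * ξ * (J.card : ℝ) ^ 2) <
      ∑ p ∈ J.offDiag, ((NQ J d p.1 p.2).card : ℝ) := by
    rw [← nsmul_eq_mul, ← Finset.sum_const]
    apply Finset.sum_lt_sum_of_nonempty hne
    intro p hp
    obtain ⟨hx, hy, hxy⟩ := Finset.mem_offDiag.1 hp
    exact h p.1 hx p.2 hy hxy
  have h3 : ∑ p ∈ J.offDiag, ((NQ J d p.1 p.2).card : ℝ) ≤ ((TN J d).card : ℝ) := by
    exact_mod_cast h1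
  have h4 : ξ * (J.card : ℝ) ^ 4 ≤ (J.offDiag.card : ℝ) * (2 * ξ * (J.card : ℝ) ^ 2) := by
    rw [hoff]
    have h5 : 0 ≤ ξ * (J.card : ℝ) ^ 2 := by positivity
    have h6 : (J.card : ℝ) ^ 2 ≤ 2 * ((J.card : ℝ) * J.card - J.card) := by nlinarith
    nlinarith [mul_le_mul_of_nonneg_left h6 h5]
  linarith

end Pool.Agent.Helper19.RD
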